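import Pool.Agent.W462.PC.LatS

/-!
# The argument of Duminil-Copin and Tassion for site percolation (project PC of helper783, task
PC-DCTS; adapted from the bond version of helper424)
-/

set_option autoImplicit false
set_option linter.all false
set_option linter.deprecated false

open MeasureTheory Set

namespace Pool.Agent.W462.PC

open Pool.Agent.W783.PC Pool.Agent.W424.PC

variable {n : ℕ}

/-- The differential inequality of Duminil-Copin and Tassion. -/
lemma piv_lowerS (hI : S_indep) (hD : S_depmeas) (r : Ix n → unitInterval) (k : ℕ)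
    (bF : Finset (V n)) (hbF : ∀ v, v ∈ bF ↔ v ∈ (CB k k : Set (V n))) (c : ℝ) (hc1 : 1 ≤ c)
    (hc : ∀ (v : V n) (T : Finset (V n)), (∀ y ∈ T, NN y v) → (T.card : ℝ) ≤ c)
    (hphi : ∀ S C : Finset (V n), (0 : V n) ∈ S → (∀ y ∈ S, y ∈ (CB k k : Set (V n)) ∧
      y ∉ Bd n k) → (∀ v, v ∈ C ↔ v ∈ (CB k k : Set (V n)) ∧ v ∉ S) →
      open scoped Classical in
      1 ≤ ∑ z ∈ (S ×ˢ C).filter (fun z => NN z.1 z.2),
        (pm r).real {ω | ω (Sum.inl 0) = true ∧ (Hs ω (S : Set (V n))).Reachable 0 z.1}) :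
    1 - (pm r).real (armS n k) ≤
      c * ∑ v ∈ bF, (pm r).real (Piv (armS n k) (Sum.inl v) ∩ {ω | ω (Sum.inl v) = false}) := by
  classical
  set μ := pm r with hμ
  set R : Set (V n) := CB k k with hR
  set EC : Finset (V n) → Set (Cfg n) := fun C => {ω | cluS ω R (Bd n k) = (C : Set (V n))} with hEC
  set Cs : Finset (Finset (V n)) := bF.powerset.filter (fun C => (0 : V n) ∉ C) with hCs
  have hin : ∀ ω, ∀ v ∈ cluS ω R (Bd n k), v ∈ R := by
    rintro ω v ⟨a, ha, ho, hr⟩
    exact reachS_mem hr ha.1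
  have harm : ∀ ω, ω ∈ armS n k ↔ (0 : V n) ∈ cluS ω R (Bd n k) := fun ω => Iff.rfl
  have hfin : (siI R).Finite := siI_finite (CB_finite k k)
  have mdep : ∀ (A : Set (Cfg n)), DepOn A (siI R) → MeasurableSet A := by
    intro A hA
    refine hD _ hfin.toFinset A ?_
    rw [Set.Finite.coe_toFinset]; exact hA
  have wsub : ∀ C : Set (V n), siI (wS R (Bd n k) C) ⊆ siI R := by
    rintro C c ⟨x, hx, rfl⟩
    exact ⟨x, hx.1, rfl⟩
  have mEC : ∀ C, MeasurableSet (EC C) := fun C =>
    mdep _ (dep_mono (dep_cluS R (Bd n k) (C : Set (V n)) (Bd_sub k)) (wsub _))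
  have hdisj : ∀ C C' : Finset (V n), C ≠ C' → Disjoint (EC C) (EC C') := by
    intro C C' hne
    rw [Set.disjoint_left]
    intro ω h1 h2
    apply hne
    have h1' : cluS ω R (Bd n k) = (C : Set (V n)) := h1
    have h2' : cluS ω R (Bd n k) = (C' : Set (V n)) := h2
    exact Finset.coe_injective (h1'.symm.trans h2')
  have hcompl : (armS n k)ᶜ = ⋃ C ∈ Cs, EC C := by
    ext ω
    rw [mem_compl_iff, harm]
    simp only [mem_iUnion, exists_prop]
    constructor
    · intro h
      refine ⟨bF.filter (fun v => v ∈ cluS ω R (Bd n k)), ?_, ?_⟩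
      · rw [hCs, Finset.mem_filter, Finset.mem_powerset]
        refine ⟨Finset.filter_subset _ _, ?_⟩
        rw [Finset.mem_filter]; exact fun h' => h h'.2
      · show cluS ω R (Bd n k) = _
        ext v
        rw [Finset.mem_coe, Finset.mem_filter, hbF]
        exact ⟨fun h => ⟨hin ω v h, h⟩, fun h => h.2⟩
    · rintro ⟨C, hC, hE'⟩
      have hE'' : cluS ω R (Bd n k) = (C : Set (V n)) := hE'
      rw [hCs, Finset.mem_filter] at hC
      rw [hE'']
      exact hC.2
  have marm : MeasurableSet (armS n k) := mdep _ (armS_dep k)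
  have hone : 1 - μ.real (armS n k) = ∑ C ∈ Cs, μ.real (EC C) := by
    have h1 := probReal_compl_eq_one_sub (μ := μ) marm
    rw [← h1, hcompl, measureReal_biUnion_finset]
    · intro C _ C' _ hne
      exact hdisj C C' hne
    · intro C _; exact mEC C
  -- pivotal sites
  have hpiv : ∀ (C : Finset (V n)) (v : V n) (ω : Cfg n), ω ∈ EC C → (0 : V n) ∉ C →
      v ∈ wS R (Bd n k) (C : Set (V n)) → v ∉ C →
      (0 : V n) ∈ cluS (upd (Sum.inl v) true ω) R (Bd n k) →
      ω ∈ (Piv (armS n k) (Sum.inl v) ∩ {ω | ω (Sum.inl v) = false}) ∩ EC C := by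
    intro C v ω hω h0 hv hvC h1
    have hcl : cluS ω R (Bd n k) = (C : Set (V n)) := hω
    have hclosed := wS_closed (Bd_sub k) hcl hv (by simpa using hvC)
    refine ⟨⟨⟨h1, ?_⟩, hclosed⟩, hω⟩
    rw [upd_of hclosed, harm, hcl]
    exact fun h => h0 (by simpa using h)
  -- lower bound for a single C
  have hC : ∀ C ∈ Cs, μ.real (EC C) ≤ c * ∑ v ∈ bF, μ.real ((Piv (armS n k) (Sum.inl v) ∩
      {ω | ω (Sum.inl v) = false}) ∩ EC C) := by
    intro C hC
    rw [hCs, Finset.mem_filter, Finset.mem_powerset] at hC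
    obtain ⟨hC1, hC2⟩ := hC
    have hterm : ∀ v ∈ bF, 0 ≤ μ.real ((Piv (armS n k) (Sum.inl v) ∩
      {ω | ω (Sum.inl v) = false}) ∩ EC C) := fun _ _ => measureReal_nonneg
    by_cases h0W : (0 : V n) ∈ wS R (Bd n k) (C : Set (V n))
    · -- the origin is pivotal
      have h1 : EC C ⊆ (Piv (armS n k) (Sum.inl (0 : V n)) ∩
          {ω | ω (Sum.inl (0 : V n)) = false}) ∩ EC C := by
        intro ω hω
        have hcl : cluS ω R (Bd n k) = (C : Set (V n)) := hω
        exact hpiv C 0 ω hω hC2 h0W hC2 (wS_piv (Bd_sub k) hcl h0W (by simpa using hC2))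
      have h2 := measureReal_mono h1 (measure_ne_top μ _)
      have h3 := Finset.single_le_sum hterm ((hbF 0).2 (zero_CB k))
      have h4 : 0 ≤ ∑ v ∈ bF, μ.real ((Piv (armS n k) (Sum.inl v) ∩
        {ω | ω (Sum.inl v) = false}) ∩ EC C) := Finset.sum_nonneg hterm
      calc μ.real (EC C) ≤ 1 * ∑ v ∈ bF, μ.real ((Piv (armS n k) (Sum.inl v) ∩
            {ω | ω (Sum.inl v) = false}) ∩ EC C) := by rw [one_mul]; exact h2.trans h3
        _ ≤ _ := mul_le_mul_of_nonneg_right hc1 h4
    set S : Finset (V n) := bF.filter (fun v => v ∉ wS R (Bd n k) (C : Set (V n))) with hS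
    set D : Finset (V n) := bF.filter (fun v => v ∈ wS R (Bd n k) (C : Set (V n))) with hDD
    have h0S : (0 : V n) ∈ S := by
      rw [hS, Finset.mem_filter, hbF]
      exact ⟨zero_CB k, h0W⟩
    have hSmem : ∀ x ∈ S, x ∈ R ∧ x ∉ wS R (Bd n k) (C : Set (V n)) := by
      intro x hx
      rw [hS, Finset.mem_filter, hbF] at hx
      exact hx
    have hSmem2 : ∀ x ∈ S, x ∈ (CB k k : Set (V n)) ∧ x ∉ Bd n k := by
      intro x hx
      obtain ⟨h1, h2⟩ := hSmem x hx
      exact ⟨h1, fun h => h2 ⟨h1, Or.inl h⟩⟩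
    have hDmem : ∀ v, v ∈ D ↔ v ∈ R ∧ v ∉ S := by
      intro v
      rw [hS, hDD, Finset.mem_filter, Finset.mem_filter, hbF]
      constructor
      · intro h
        exact ⟨h.1, fun h' => h'.2 h.2⟩
      · rintro ⟨h1, h2⟩
        refine ⟨h1, ?_⟩
        by_contra h3
        exact h2 ⟨h1, h3⟩
    set Z := (S ×ˢ D).filter (fun z : V n × V n => NN z.1 z.2) with hZ
    have hbd : ∀ z ∈ Z, z.1 ∈ S ∧ z.2 ∈ D ∧ NN z.1 z.2 := by
      intro z hz
      rw [hZ, Finset.mem_filter, Finset.mem_product] at hz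
      exact ⟨hz.1.1, hz.1.2, hz.2⟩
    have hz : ∀ z ∈ Z, μ.real (EC C) *
        μ.real {ω | ω (Sum.inl 0) = true ∧ (Hs ω (S : Set (V n))).Reachable 0 z.1} ≤
        μ.real ((Piv (armS n k) (Sum.inl z.2) ∩ {ω | ω (Sum.inl z.2) = false}) ∩ EC C) := by
      intro z hz
      obtain ⟨g1, g2, g3⟩ := hbd z hz
      have hSB : (S : Set (V n)) ⊆ R := fun x hx => (hSmem x hx).1
      have mr : MeasurableSet {ω : Cfg n | ω (Sum.inl 0) = true ∧
          (Hs ω (S : Set (V n))).Reachable 0 z.1} := by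
        refine mdep _ (dep_mono (dep_reachS _ _ _ h0S) ?_)
        rintro c ⟨x, hx, rfl⟩
        exact ⟨x, hSB hx, rfl⟩
      have hind : μ (EC C ∩ {ω | ω (Sum.inl 0) = true ∧ (Hs ω (S : Set (V n))).Reachable 0 z.1}) =
          μ (EC C) * μ {ω | ω (Sum.inl 0) = true ∧ (Hs ω (S : Set (V n))).Reachable 0 z.1} := by
        refine hI _ r _ _ _ _ (dep_cluS R (Bd n k) (C : Set (V n)) (Bd_sub k))
          (dep_reachS _ _ _ h0S) ?_ (mEC C) mr
        rw [Set.disjoint_left]
        rintro e ⟨x, hx, rfl⟩ ⟨x', hx', h⟩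
        have h1 : x = x' := Sum.inl.inj h
        rw [h1] at hx
        exact (hSmem _ hx').2 hx
      have hindr : μ.real (EC C) *
          μ.real {ω | ω (Sum.inl 0) = true ∧ (Hs ω (S : Set (V n))).Reachable 0 z.1} =
          μ.real (EC C ∩ {ω | ω (Sum.inl 0) = true ∧
            (Hs ω (S : Set (V n))).Reachable 0 z.1}) := by
        unfold Measure.real
        rw [hind, ENNReal.toReal_mul]
      rw [hindr]
      refine measureReal_mono ?_ (measure_ne_top _ _)
      rintro ω ⟨hω, h0, hr⟩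
      have hcl : cluS ω R (Bd n k) = (C : Set (V n)) := hω
      have g2' : z.2 ∈ wS R (Bd n k) (C : Set (V n)) := by
        rw [hDD, Finset.mem_filter] at g2
        exact g2.2
      have hvC : z.2 ∉ C := by
        intro h
        refine (hSmem z.1 g1).2 ⟨(hSmem z.1 g1).1, Or.inr (Or.inr ⟨z.2, h, NN_symm g3⟩)⟩
      refine hpiv C z.2 ω hω hC2 g2' hvC ?_
      have h5 := wS_piv (Bd_sub k) hcl g2' (by simpa using hvC)
      obtain ⟨a, ha, ho, hra⟩ := h5
      refine ⟨a, ha, ho, hra.trans (SimpleGraph.Reachable.trans ?_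
        ((hr.mono (Hs_mono hSB)).mono (Hs_le (R := R) (upd_true_le (Sum.inl z.2) ω))).symm)⟩
      refine SimpleGraph.Adj.reachable ⟨g2'.1, (hSmem z.1 g1).1, NN_symm g3, upd_self _ _ _, ?_⟩
      exact upd_true_le (Sum.inl z.2) ω _ (reachS_open hr h0)
    have hphiS := hphi S D h0S hSmem2 hDmem
    have hsum1 : 1 ≤ ∑ z ∈ Z, μ.real {ω | ω (Sum.inl 0) = true ∧
        (Hs ω (S : Set (V n))).Reachable 0 z.1} := by
      rw [hZ]
      exact hphiS
    calc μ.real (EC C) ≤ μ.real (EC C) *
          ∑ z ∈ Z, μ.real {ω | ω (Sum.inl 0) = true ∧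
            (Hs ω (S : Set (V n))).Reachable 0 z.1} := by
          have : 0 ≤ μ.real (EC C) := measureReal_nonneg
          nlinarith
      _ = ∑ z ∈ Z, μ.real (EC C) * μ.real {ω | ω (Sum.inl 0) = true ∧
            (Hs ω (S : Set (V n))).Reachable 0 z.1} := by
          rw [Finset.mul_sum]
      _ ≤ ∑ z ∈ Z, μ.real ((Piv (armS n k) (Sum.inl z.2) ∩
          {ω | ω (Sum.inl z.2) = false}) ∩ EC C) := Finset.sum_le_sum hz
      _ = ∑ v ∈ D, ∑ y ∈ S, if NN y v then μ.real ((Piv (armS n k) (Sum.inl v) ∩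
          {ω | ω (Sum.inl v) = false}) ∩ EC C) else 0 := by
          rw [hZ, Finset.sum_filter, Finset.sum_product_right]
      _ ≤ ∑ v ∈ D, c * μ.real ((Piv (armS n k) (Sum.inl v) ∩
          {ω | ω (Sum.inl v) = false}) ∩ EC C) := by
          refine Finset.sum_le_sum fun v _ => ?_
          rw [← Finset.sum_filter, Finset.sum_const, nsmul_eq_mul]
          refine mul_le_mul_of_nonneg_right (hc v _ ?_) measureReal_nonneg
          intro y hy
          exact (Finset.mem_filter.1 hy).2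
      _ ≤ ∑ v ∈ bF, c * μ.real ((Piv (armS n k) (Sum.inl v) ∩
          {ω | ω (Sum.inl v) = false}) ∩ EC C) :=
          Finset.sum_le_sum_of_subset_of_nonneg (Finset.filter_subset _ _) fun _ _ _ =>
            mul_nonneg (by linarith) measureReal_nonneg
      _ = _ := by rw [Finset.mul_sum]
  rw [hone]
  calc ∑ C ∈ Cs, μ.real (EC C) ≤ ∑ C ∈ Cs, c * ∑ v ∈ bF, μ.real ((Piv (armS n k) (Sum.inl v) ∩
      {ω | ω (Sum.inl v) = false}) ∩ EC C) := Finset.sum_le_sum hC
    _ = c * ∑ v ∈ bF, ∑ C ∈ Cs, μ.real ((Piv (armS n k) (Sum.inl v) ∩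
      {ω | ω (Sum.inl v) = false}) ∩ EC C) := by
        rw [← Finset.mul_sum, Finset.sum_comm]
    _ ≤ c * ∑ v ∈ bF, μ.real (Piv (armS n k) (Sum.inl v) ∩ {ω | ω (Sum.inl v) = false}) := by
        refine mul_le_mul_of_nonneg_left ?_ (by linarith)
        refine Finset.sum_le_sum fun v hv => ?_
        have hmeas : MeasurableSet (Piv (armS n k) (Sum.inl v) ∩ {ω | ω (Sum.inl v) = false}) :=
          (mdep _ (dep_Piv (armS_dep k) _)).inter (meas_coord _ false)
        rw [← measureReal_biUnion_finset]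
        · refine measureReal_mono ?_ (measure_ne_top _ _)
          refine Set.iUnion₂_subset fun C _ => inter_subset_left
        · intro C _ C' _ hne
          exact Set.disjoint_of_subset inter_subset_right inter_subset_right (hdisj C C' hne)
        · intro C _; exact hmeas.inter (mEC C)

/-- The functional in terms of boundary pairs. -/
lemma phiS_le_pairs (a : unitInterval) (s : ℝ) (m k : ℕ) (S C : Finset (V n))
    (hS : ∀ y ∈ S, y ∈ (CB k k : Set (V n)) ∧ y ∉ Bd n k)
    (hC : ∀ v, v ∈ C ↔ v ∈ (CB k k : Set (V n)) ∧ v ∉ S) :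
    open scoped Classical in
    phiS a 0 s m S 0 ≤ ∑ z ∈ (S ×ˢ C).filter (fun z => NN z.1 z.2),
        (pm (prob (n := n) a 1 0 s m)).real {ω | ω (Sum.inl 0) = true ∧
          (Hs ω (S : Set (V n))).Reachable 0 z.1} := by
  classical
  unfold phiS
  rw [Finset.sum_filter, Finset.sum_product]
  refine Finset.sum_le_sum fun y hy => ?_
  have hcongr : (pm (prob (n := n) a 1 0 s m)).real
      {ω | ω (Sum.inl 0) = true ∧ (G (EdI m) ω (S : Set (V n))).Reachable 0 y} =
      (pm (prob (n := n) a 1 0 s m)).real {ω | ω (Sum.inl 0) = true ∧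
        (Hs ω (S : Set (V n))).Reachable 0 y} := by
    refine measureReal_congr ?_
    filter_upwards [ae_OmS (n := n) a s m] with ω hω
    apply propext
    show (ω (Sum.inl 0) = true ∧ (G (EdI m) ω (S : Set (V n))).Reachable 0 y) ↔
      (ω (Sum.inl 0) = true ∧ (Hs ω (S : Set (V n))).Reachable 0 y)
    rw [G_eq_Hs hω]
  rw [hcongr]
  set b := (pm (prob (n := n) a 1 0 s m)).real {ω | ω (Sum.inl 0) = true ∧
    (Hs ω (S : Set (V n))).Reachable 0 y}
  have htsum : (∑' z : V n, if z ∈ S then (0 : ℝ) else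
      (prob (n := n) a 1 0 s m (Sum.inr s(y, z)) : ℝ)) =
      ∑ z ∈ C, if NN y z then (1 : ℝ) else 0 := by
    rw [tsum_eq_sum (s := C)]
    · refine Finset.sum_congr rfl fun z hz => ?_
      rw [if_neg ((hC z).1 hz).2, probS_eq]
      unfold rpS
      simp only [isNN_iff]
    · intro z hz
      by_cases hzS : z ∈ S
      · rw [if_pos hzS]
      · rw [if_neg hzS, probS_eq]
        unfold rpS
        simp only [isNN_iff]
        rw [if_neg]
        intro hNN
        exact hz ((hC z).2 ⟨NN_CB hNN (hS y hy).1 (hS y hy).2, hzS⟩)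
  rw [htsum, Finset.mul_sum]
  refine Finset.sum_le_sum fun z hz => ?_
  by_cases h : NN y z
  · rw [if_pos h, if_pos h, mul_one]
  · rw [if_neg h, if_neg h, mul_zero]

/-- a bound for the number of neighbours -/
lemma nb_bound (n : ℕ) : ∃ c : ℝ, 1 ≤ c ∧
    ∀ (v : V n) (T : Finset (V n)), (∀ y ∈ T, NN y v) → (T.card : ℝ) ≤ c := by
  classical
  refine ⟨((CB_finite (n := n) 1 1).toFinset.card : ℝ) + 1, ?_, ?_⟩
  · have : (0 : ℝ) ≤ ((CB_finite (n := n) 1 1).toFinset.card : ℝ) := Nat.cast_nonneg _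
    linarith
  · intro v T hT
    have h1 : T.image (fun y => y - v) ⊆ (CB_finite (n := n) 1 1).toFinset := by
      intro w hw
      rw [Finset.mem_image] at hw
      obtain ⟨y, hy, rfl⟩ := hw
      rw [Set.Finite.mem_toFinset]
      obtain ⟨h1, h2⟩ := NN_le (hT y hy)
      exact ⟨by simpa using h1, fun i => by simpa using h2 i⟩
    have h2 := Finset.card_le_card h1
    rw [Finset.card_image_of_injective _ (sub_left_injective)] at h2
    have h3 : (T.card : ℝ) ≤ ((CB_finite (n := n) 1 1).toFinset.card : ℝ) := by exact_mod_cast h2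
    linarith

/-- the arm probabilities are bounded from below -/
lemma armS_lower (hI : S_indep) (hD : S_depmeas) (hM : S_mono) (m : ℕ) (s : ℝ)
    (p p' : unitInterval) (hpp : p < p') (c : ℝ) (hc1 : 1 ≤ c)
    (hc : ∀ (v : V n) (T : Finset (V n)), (∀ y ∈ T, NN y v) → (T.card : ℝ) ≤ c)
    (hcon : ∀ S : Finset (V n), 0 ∈ S → 1 ≤ phiS p 0 s m S 0) (k : ℕ) :
    1 - Real.exp (-(((p' : ℝ) - p) / c)) ≤ (pm (prob (n := n) p' 1 0 s m)).real (armS n k) := by
  classical
  have hfin : (siI (CB k k : Set (V n))).Finite := siI_finite (CB_finite k k)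
  set bF := (CB_finite (n := n) k k).toFinset with hbFdef
  have hbF : ∀ v, v ∈ bF ↔ v ∈ (CB k k : Set (V n)) := fun v => by
    rw [hbFdef, Set.Finite.mem_toFinset]
  set E : Finset (Ix n) := bF.map ⟨Sum.inl, Sum.inl_injective⟩ with hEdef
  have hE : (E : Set (Ix n)) = siI (CB k k : Set (V n)) := by
    ext e
    simp only [hEdef, Finset.coe_map, Function.Embedding.coeFn_mk, Set.mem_image, Finset.mem_coe,
      hbF]
    constructor
    · rintro ⟨x, hx, rfl⟩; exact ⟨x, hx, rfl⟩
    · rintro ⟨x, hx, rfl⟩; exact ⟨x, hx, rfl⟩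
  have hdep : DepOn (armS n k) (E : Set (Ix n)) := by
    rw [hE]; exact armS_dep k
  set F : ℝ → ℝ := fun t => EE E (rpS n t) (I1 (armS n k)) with hF
  have hFq : ∀ q : unitInterval, F q = (pm (prob (n := n) q 1 0 s m)).real (armS n k) := by
    intro q
    rw [pm_eq_EE hI hD _ hdep]
    have : rpS n (q : ℝ) = fun c => (prob (n := n) q 1 0 s m c : ℝ) := by
      funext c; exact (probS_eq q s m c).symm
    rw [hF]
    simp only [this]
  have hmono : ∀ q : unitInterval, p ≤ q → ∀ c, prob (n := n) p 1 0 s m c ≤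
      prob (n := n) q 1 0 s m c := by
    intro q hq c
    rw [← Subtype.coe_le_coe, probS_eq, probS_eq]
    cases c with
    | inl x => exact hq
    | inr e => exact le_refl _
  have hder : ∀ t : ℝ, (p : ℝ) ≤ t → t ≤ p' → ∃ D, HasDerivAt F D t ∧ 1 - F t ≤ c * D := by
    intro t h1 h2
    have ht0 : 0 ≤ t := le_trans p.2.1 h1
    have ht1 : t ≤ 1 := le_trans h2 p'.2.2
    set q : unitInterval := ⟨t, ht0, ht1⟩ with hq
    have hpq : p ≤ q := h1
    set r := prob (n := n) q 1 0 s m with hr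
    set ρ' : Ix n → ℝ := fun c => match c with
      | Sum.inl _ => 1
      | Sum.inr e => 0 with hρ'
    have hd := russo_pm hI hD r hdep (armS_inc k) (fun t => rpS n t) ρ' t (by
      intro c
      cases c with
      | inl x => simpa [rpS, hρ'] using hasDerivAt_id' t
      | inr e =>
        by_cases he : isNN e
        · simpa [rpS, hρ', he] using hasDerivAt_const t (1 : ℝ)
        · simpa [rpS, hρ', he] using hasDerivAt_const t (0 : ℝ)) (by
      intro c
      rw [hr, probS_eq])
    refine ⟨_, hd, ?_⟩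
    have h3 := piv_lowerS hI hD r k bF hbF c hc1 hc (by
        intro S C h0 hS hC
        refine (hcon S h0).trans ((phiS_le_pairs p s m k S C hS hC).trans ?_)
        refine Finset.sum_le_sum fun z hz => ?_
        have hSfin : (siI (S : Set (V n))).Finite := siI_finite S.finite_toSet
        have hmeas : MeasurableSet {ω : Cfg n | ω (Sum.inl 0) = true ∧
            (Hs ω (S : Set (V n))).Reachable 0 z.1} := by
          refine hD _ hSfin.toFinset _ ?_
          rw [Set.Finite.coe_toFinset]; exact dep_reachS _ _ _ h0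
        have hinc : Inc {ω : Cfg n | ω (Sum.inl 0) = true ∧
            (Hs ω (S : Set (V n))).Reachable 0 z.1} := by
          intro ω ω' h hω
          exact ⟨h _ hω.1, SimpleGraph.Reachable.mono (Hs_le h) hω.2⟩
        exact ENNReal.toReal_mono (measure_ne_top _ _)
          (hM _ _ _ _ (hmono q hpq) hinc hmeas))
    have h4 : F t = (pm r).real (armS n k) := hFq q
    rw [h4]
    refine h3.trans ?_
    refine mul_le_mul_of_nonneg_left ?_ (by linarith)
    rw [hEdef, Finset.sum_map]
    refine Finset.sum_le_sum fun v hv => ?_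
    have hvE : (Sum.inl v : Ix n) ∈ E := by
      rw [hEdef, Finset.mem_map]
      exact ⟨v, hv, rfl⟩
    rw [piv_closed hI hD r hdep hvE]
    have h5 : (r (Sum.inl v) : ℝ) = t := by
      rw [hr, probS_eq]
      rfl
    simp only [Function.Embedding.coeFn_mk]
    rw [h5, one_mul]
    have h7 : 0 ≤ (pm r).real (Piv (armS n k) (Sum.inl v)) := measureReal_nonneg
    nlinarith
  set g : ℝ → ℝ := fun t => (1 - F t) * Real.exp (t / c) with hg
  have hcpos : 0 < c := by linarith
  have hgder : ∀ t : ℝ, (p : ℝ) ≤ t → t ≤ p' → ∃ D, HasDerivAt g D t ∧ D ≤ 0 := by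
    intro t h1 h2
    obtain ⟨D, hD, hD2⟩ := hder t h1 h2
    have he : HasDerivAt (fun t : ℝ => Real.exp (t / c)) (Real.exp (t / c) * (1 / c)) t :=
      ((hasDerivAt_id' t).div_const c).exp
    have h3 := ((hasDerivAt_const t (1 : ℝ)).sub hD).mul he
    refine ⟨_, h3, ?_⟩
    simp only [Pi.sub_apply]
    have h4 := Real.exp_pos (t / c)
    have h5 : (1 - F t) * (1 / c) ≤ D := by
      rw [mul_one_div, div_le_iff₀ hcpos]
      linarith
    nlinarith
  have hpp' : (p : ℝ) < p' := hpp
  have hanti : AntitoneOn g (Set.Icc (p : ℝ) p') := by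
    refine antitoneOn_of_deriv_nonpos (convex_Icc _ _) ?_ ?_ ?_
    · intro t ht
      obtain ⟨D, hD, _⟩ := hgder t ht.1 ht.2
      exact hD.continuousAt.continuousWithinAt
    · intro t ht
      rw [interior_Icc] at ht
      obtain ⟨D, hD, _⟩ := hgder t ht.1.le ht.2.le
      exact hD.differentiableAt.differentiableWithinAt
    · intro t ht
      rw [interior_Icc] at ht
      obtain ⟨D, hD, hD2⟩ := hgder t ht.1.le ht.2.le
      rw [hD.deriv]; exact hD2
  have h1 := hanti (Set.left_mem_Icc.2 hpp'.le) (Set.right_mem_Icc.2 hpp'.le) hpp'.le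
  have h3 : 0 ≤ F p := by rw [hFq p]; exact measureReal_nonneg
  rw [← hFq p']
  simp only [hg] at h1
  have h4 : (1 - F p) * Real.exp (p / c) ≤ Real.exp (p / c) := by
    have := Real.exp_pos ((p : ℝ) / c)
    nlinarith
  have h5 : (1 - F p') ≤ Real.exp (-(((p' : ℝ) - p) / c)) := by
    have h6 : Real.exp (-(((p' : ℝ) - p) / c)) * Real.exp (p' / c) = Real.exp (p / c) := by
      rw [← Real.exp_add]; congr 1; field_simp; ring
    have h7 := Real.exp_pos ((p' : ℝ) / c)
    have h8 : (1 - F p') * Real.exp (p' / c) ≤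
        Real.exp (-(((p' : ℝ) - p) / c)) * Real.exp (p' / c) := by rw [h6]; linarith
    exact le_of_mul_le_mul_right h8 h7
  linarith

/-- Duminil-Copin and Tassion for site percolation -/
theorem s_dctS (hI : S_indep) (hD : S_depmeas) (hM : S_mono) (hR : S_reach_meas) : S_dctS := by
  classical
  intro n m s p p' hn hpp h0
  by_contra hcon
  push Not at hcon
  obtain ⟨c, hc1, hc⟩ := nb_bound n
  set μ := pm (prob (n := n) p' 1 0 s m) with hμ
  set B : ℕ → Set (Cfg n) := fun k =>
    {ω | ∃ y : V n, y ∉ (CB k k : Set (V n)) ∧ (G (EdI m) ω univ).Reachable 0 y} with hB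
  have hBm : ∀ k, MeasurableSet (B k) := by
    intro k
    have : B k = ⋃ y : V n, ⋃ (_ : y ∉ (CB k k : Set (V n))),
        {ω | (G (EdI m) ω univ).Reachable 0 y} := by
      ext ω; simp [hB]
    rw [this]
    exact MeasurableSet.iUnion fun y => MeasurableSet.iUnion fun _ => hR n _ _ _ _
  have hBanti : Antitone B := by
    intro k l hkl ω hω
    obtain ⟨y, hy, hr⟩ := hω
    refine ⟨y, fun h => hy ?_, hr⟩
    have hkl' : (k : ℤ) ≤ l := by exact_mod_cast hkl
    exact ⟨h.1.trans hkl', fun i => (h.2 i).trans hkl'⟩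
  have hsubP : (⋂ k, B k) ⊆ Perc (EdI m) (0 : V n) := by
    intro ω hω
    rw [mem_iInter] at hω
    show (cl (EdI m) ω univ 0).Infinite
    intro hfin
    obtain ⟨M, hM⟩ : ∃ M : ℕ, ∀ v ∈ hfin.toFinset, v ∈ (CB M M : Set (V n)) := by
      refine ⟨∑ v ∈ hfin.toFinset, (v.1.natAbs + ∑ i, (v.2 i).natAbs), fun v hv => ?_⟩
      have h1 := Finset.single_le_sum (f := fun v : V n => (v.1.natAbs + ∑ i, (v.2 i).natAbs))
          (fun _ _ => Nat.zero_le _) hv
      constructor
      · have h2 : v.1.natAbs ≤ ∑ v ∈ hfin.toFinset, (v.1.natAbs + ∑ i, (v.2 i).natAbs) :=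
          (Nat.le_add_right _ _).trans h1
        rw [Int.abs_eq_natAbs]
        exact_mod_cast h2
      · intro i
        have h3 : (v.2 i).natAbs ≤ ∑ i, (v.2 i).natAbs :=
          Finset.single_le_sum (f := fun i => (v.2 i).natAbs) (fun _ _ => Nat.zero_le _)
            (Finset.mem_univ i)
        have h2 : (v.2 i).natAbs ≤ ∑ v ∈ hfin.toFinset, (v.1.natAbs + ∑ i, (v.2 i).natAbs) :=
          (h3.trans (Nat.le_add_left _ _)).trans h1
        rw [Int.abs_eq_natAbs]
        exact_mod_cast h2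
    obtain ⟨y, hy, hr⟩ := hω M
    exact hy (hM y (by rw [Set.Finite.mem_toFinset]; exact hr))
  have hlow : ∀ k, 1 - Real.exp (-(((p' : ℝ) - p) / c)) ≤ μ.real (B k) := by
    intro k
    have h1 := armS_lower hI hD hM m s p p' hpp c hc1 hc hcon (k + 1)
    refine h1.trans ?_
    have h2 : μ (armS n (k + 1)) ≤ μ (B k) := by
      refine measure_mono_ae ?_
      filter_upwards [ae_OmS (n := n) p' s m] with ω hω
      rintro ⟨b, hb, ho, hr⟩
      refine ⟨b, ?_, ?_⟩
      · intro hb2
        obtain ⟨_, hb1⟩ := hb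
        obtain ⟨hc1, hc2⟩ := hb2
        push_cast at hb1
        rcases hb1 with h | ⟨i, h⟩
        · omega
        · have := hc2 i; omega
      · rw [G_eq_Hs hω]
        exact (hr.mono (Hs_mono (subset_univ _))).symm
    exact ENNReal.toReal_mono (measure_ne_top _ _) h2
  have hlim := tendsto_measure_iInter_atTop (μ := μ) (s := B)
    (fun k => (hBm k).nullMeasurableSet) hBanti ⟨0, measure_ne_top _ _⟩
  have hP : 1 - Real.exp (-(((p' : ℝ) - p) / c)) ≤ μ.real (⋂ k, B k) := by
    have h1 : Filter.Tendsto (fun k => μ.real (B k)) Filter.atTop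
        (nhds (μ.real (⋂ k, B k))) := by
      unfold Measure.real
      exact (ENNReal.tendsto_toReal (measure_ne_top _ _)).comp hlim
    exact ge_of_tendsto' h1 hlow
  have hP2 : μ.real (⋂ k, B k) ≤ μ.real (Perc (EdI m) (0 : V n)) :=
    measureReal_mono hsubP (measure_ne_top _ _)
  have hexp : Real.exp (-(((p' : ℝ) - p) / c)) < 1 := by
    rw [Real.exp_lt_one_iff]
    have h1 : (p : ℝ) < p' := hpp
    have h2 : 0 < ((p' : ℝ) - p) / c := div_pos (by linarith) (by linarith)
    linarith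
  rw [h0] at hP2
  linarith

end Pool.Agent.W462.PC
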