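import Pool.Agent.W424.PC.Lat
import Pool.Agent.W783.Perc.Stmts2

/-!
# The nearest-neighbour graph, site percolation (project PC of helper783, task PC-DCTS; adapted from
the bond version of helper424)
-/

set_option autoImplicit false
set_option linter.all false
set_option linter.deprecated false

open MeasureTheory Set

namespace Pool.Agent.W462.PC

open Pool.Agent.W783.PC Pool.Agent.W424.PC

variable {n : ℕ}

/-- open nearest-neighbour sites inside `R` -/
def Hs (ω : Cfg n) (R : Set (V n)) : SimpleGraph (V n) where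
  Adj x y := x ∈ R ∧ y ∈ R ∧ NN x y ∧ ω (Sum.inl x) = true ∧ ω (Sum.inl y) = true
  symm := ⟨fun x y ⟨h1, h2, h3, h4, h5⟩ => ⟨h2, h1, NN_symm h3, h5, h4⟩⟩
  loopless := ⟨fun x h => not_NN_self x h.2.2.1⟩

/-- nearest neighbour bonds open, other bonds closed -/
def OmS (n : ℕ) : Set (Cfg n) :=
  {ω | (∀ e, isNN e → ω (Sum.inr e) = true) ∧ ∀ e, ¬ isNN e → ω (Sum.inr e) = false}

lemma G_eq_Hs {ω : Cfg n} (hω : ω ∈ OmS n) (m : ℕ) (R : Set (V n)) : G (EdI m) ω R = Hs ω R := by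
  ext x y
  constructor
  · rintro ⟨h1, h2, h3, h4, h5, h6, h7⟩
    refine ⟨h2, h3, ?_, h5, h6⟩
    by_contra h8
    have := hω.2 s(x, y) (fun h => h8 (isNN_iff.1 h))
    rw [this] at h7
    simp at h7
  · rintro ⟨h1, h2, h3, h4, h5⟩
    refine ⟨?_, h1, h2, Or.inl (isNN_iff.2 h3), h4, h5, hω.1 _ (isNN_iff.2 h3)⟩
    rintro rfl
    exact not_NN_self _ h3

/-- the real parameters -/
noncomputable def rpS (n : ℕ) (t : ℝ) (c : Ix n) : ℝ :=
  open scoped Classical in
  match c with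
  | Sum.inl _ => t
  | Sum.inr e => if isNN e then 1 else 0

lemma probS_eq (q : unitInterval) (s : ℝ) (m : ℕ) (c : Ix n) :
    (prob (n := n) q 1 0 s m c : ℝ) = rpS n q c := by
  classical
  cases c with
  | inl x => simp [prob, rpS]
  | inr e =>
    simp only [prob, rpS]
    by_cases h : isNN e
    · simp [h]
    · by_cases h2 : isLg m e
      · simp [h, h2, lrp]
      · simp [h, h2]

lemma ae_OmS (q : unitInterval) (s : ℝ) (m : ℕ) :
    ∀ᵐ ω ∂(pm (prob (n := n) q 1 0 s m)), ω ∈ OmS n := by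
  classical
  set r := prob (n := n) q 1 0 s m with hr
  have h1 : ∀ᵐ ω ∂(pm r), ∀ e, isNN e → ω (Sum.inr e) = true := by
    rw [ae_all_iff]
    intro e
    by_cases he : isNN e
    · rw [ae_iff]
      have h := (pm_coord r (Sum.inr e)).2
      have h2 : (r (Sum.inr e) : ℝ) = 1 := by rw [hr, probS_eq]; simp [rpS, he]
      rw [h2, sub_self, measureReal_def, ENNReal.toReal_eq_zero_iff] at h
      rcases h with h | h
      · rw [← h]; congr 1; ext ω; simp [he]
      · exact absurd h (measure_ne_top _ _)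
    · exact Filter.Eventually.of_forall fun ω h => absurd h he
  have h2 : ∀ᵐ ω ∂(pm r), ∀ e, ¬ isNN e → ω (Sum.inr e) = false := by
    rw [ae_all_iff]
    intro e
    by_cases he : isNN e
    · exact Filter.Eventually.of_forall fun ω h => absurd he h
    · rw [ae_iff]
      have h := (pm_coord r (Sum.inr e)).1
      have h2 : (r (Sum.inr e) : ℝ) = 0 := by rw [hr, probS_eq]; simp [rpS, he]
      rw [h2, measureReal_def, ENNReal.toReal_eq_zero_iff] at h
      rcases h with h | h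
      · rw [← h]; congr 1; ext ω; simp [he]
      · exact absurd h (measure_ne_top _ _)
  filter_upwards [h1, h2] with ω a b using ⟨a, b⟩

/-- sites inside `R` -/
def siI (R : Set (V n)) : Set (Ix n) := {c | ∃ x ∈ R, c = Sum.inl x}

lemma Hs_congr {ω ω' : Cfg n} {R : Set (V n)} (h : ∀ c ∈ siI R, ω c = ω' c) : Hs ω R = Hs ω' R := by
  ext x y
  constructor
  · rintro ⟨h1, h2, h3, h4, h5⟩
    exact ⟨h1, h2, h3, by rw [← h _ ⟨x, h1, rfl⟩]; exact h4, by rw [← h _ ⟨y, h2, rfl⟩]; exact h5⟩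
  · rintro ⟨h1, h2, h3, h4, h5⟩
    exact ⟨h1, h2, h3, by rw [h _ ⟨x, h1, rfl⟩]; exact h4, by rw [h _ ⟨y, h2, rfl⟩]; exact h5⟩

lemma Hs_mono {ω : Cfg n} {R R' : Set (V n)} (h : R ⊆ R') : Hs ω R ≤ Hs ω R' := by
  intro x y hxy
  exact ⟨h hxy.1, h hxy.2.1, hxy.2.2⟩

lemma Hs_le {ω ω' : Cfg n} {R : Set (V n)} (h : ∀ c, ω c = true → ω' c = true) :
    Hs ω R ≤ Hs ω' R := by
  intro x y hxy
  exact ⟨hxy.1, hxy.2.1, hxy.2.2.1, h _ hxy.2.2.2.1, h _ hxy.2.2.2.2⟩

/-- the cluster of the open sites of a set -/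
def cluS (ω : Cfg n) (R A : Set (V n)) : Set (V n) :=
  {v | ∃ a ∈ A, ω (Sum.inl a) = true ∧ (Hs ω R).Reachable a v}

lemma reachS_mem {ω : Cfg n} {R : Set (V n)} {x y : V n} (h : (Hs ω R).Reachable x y)
    (hx : x ∈ R) : y ∈ R := by
  rw [SimpleGraph.reachable_iff_reflTransGen] at h
  induction h with
  | refl => exact hx
  | tail _ h _ => exact h.2.1

lemma reachS_open {ω : Cfg n} {R : Set (V n)} {x y : V n} (h : (Hs ω R).Reachable x y)
    (hx : ω (Sum.inl x) = true) : ω (Sum.inl y) = true := by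
  rw [SimpleGraph.reachable_iff_reflTransGen] at h
  induction h with
  | refl => exact hx
  | tail _ h _ => exact h.2.2.2.2

lemma cluS_open {ω : Cfg n} {R A : Set (V n)} {v : V n} (h : v ∈ cluS ω R A) :
    ω (Sum.inl v) = true := by
  obtain ⟨a, _, h1, h2⟩ := h
  exact reachS_open h2 h1

lemma cluS_le {ω ω' : Cfg n} {R A : Set (V n)} (h : ∀ c, ω c = true → ω' c = true) :
    cluS ω R A ⊆ cluS ω' R A := by
  rintro v ⟨a, ha, h1, h2⟩
  exact ⟨a, ha, h _ h1, h2.mono (Hs_le h)⟩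

/-- sites explored by the cluster `C` of `A` -/
def wS (R A C : Set (V n)) : Set (V n) := {v | v ∈ R ∧ (v ∈ A ∨ v ∈ C ∨ ∃ u ∈ C, NN u v)}

lemma dep_cluS (R A C : Set (V n)) (hA : A ⊆ R) :
    DepOn {ω : Cfg n | cluS ω R A = C} (siI (wS R A C)) := by
  have key : ∀ ω ω' : Cfg n, (∀ i ∈ siI (wS R A C), ω i = ω' i) → cluS ω R A = C →
      cluS ω' R A = C := by
    intro ω ω' h hC
    have hopA : ∀ a ∈ A, ω (Sum.inl a) = ω' (Sum.inl a) := fun a ha =>
      h _ ⟨a, ⟨hA ha, Or.inl ha⟩, rfl⟩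
    have hopC : ∀ a ∈ C, a ∈ R → ω (Sum.inl a) = ω' (Sum.inl a) := fun a ha haR =>
      h _ ⟨a, ⟨haR, Or.inr (Or.inl ha)⟩, rfl⟩
    have hopN : ∀ a ∈ C, ∀ b ∈ R, NN a b → ω (Sum.inl b) = ω' (Sum.inl b) := fun a ha b hb hab =>
      h _ ⟨b, ⟨hb, Or.inr (Or.inr ⟨a, ha, hab⟩)⟩, rfl⟩
    ext v
    constructor
    · rintro ⟨a, ha, ho, hr⟩
      rw [SimpleGraph.reachable_iff_reflTransGen] at hr
      induction hr with
      | refl => rw [← hC]; exact ⟨a, ha, by rw [hopA a ha]; exact ho, SimpleGraph.Reachable.refl _⟩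
      | @tail c d _ hcd ih =>
        have h1 : ω (Sum.inl d) = true := by
          rw [hopN c ih d hcd.2.1 hcd.2.2.1]; exact hcd.2.2.2.2
        rw [← hC] at ih ⊢
        obtain ⟨a', ha', ho', hr'⟩ := ih
        exact ⟨a', ha', ho', hr'.trans (SimpleGraph.Adj.reachable
          ⟨hcd.1, hcd.2.1, hcd.2.2.1, reachS_open hr' ho', h1⟩)⟩
    · intro hv
      rw [← hC] at hv
      obtain ⟨a, ha, ho, hr⟩ := hv
      refine ⟨a, ha, by rw [← hopA a ha]; exact ho, ?_⟩
      rw [SimpleGraph.reachable_iff_reflTransGen] at hr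
      induction hr with
      | refl => exact SimpleGraph.Reachable.refl _
      | @tail c d hac hcd ih =>
        have hcC : c ∈ C := by
          rw [← hC]
          exact ⟨a, ha, ho, (SimpleGraph.reachable_iff_reflTransGen a c).2 hac⟩
        refine ih.trans (SimpleGraph.Adj.reachable ⟨hcd.1, hcd.2.1, hcd.2.2.1, ?_, ?_⟩)
        · rw [← hopC c hcC hcd.1]; exact hcd.2.2.2.1
        · rw [← hopN c hcC d hcd.2.1 hcd.2.2.1]; exact hcd.2.2.2.2
  intro ω ω' h
  exact ⟨key ω ω' h, key ω' ω fun i hi => (h i hi).symm⟩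

lemma dep_reachS (R : Set (V n)) (x y : V n) (hx : x ∈ R) :
    DepOn {ω : Cfg n | ω (Sum.inl x) = true ∧ (Hs ω R).Reachable x y} (siI R) := by
  intro ω ω' h
  simp only [mem_setOf_eq]
  rw [Hs_congr h, h _ ⟨x, hx, rfl⟩]

lemma siI_finite {R : Set (V n)} (h : R.Finite) : (siI R).Finite := by
  have : siI R ⊆ (fun z : V n => (Sum.inl z : Ix n)) '' R := by
    rintro c ⟨x, hx, rfl⟩
    exact ⟨x, hx, rfl⟩
  exact (h.image _).subset this

/-- closed sites at the boundary of the cluster -/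
lemma wS_closed {ω : Cfg n} {R A C : Set (V n)} (hA : A ⊆ R) (hC : cluS ω R A = C) {v : V n}
    (hv : v ∈ wS R A C) (hvC : v ∉ C) : ω (Sum.inl v) = false := by
  by_contra hne
  rw [Bool.not_eq_false] at hne
  obtain ⟨hR, h | h | ⟨u, hu, huv⟩⟩ := hv
  · apply hvC
    rw [← hC]
    exact ⟨v, h, hne, SimpleGraph.Reachable.refl _⟩
  · exact hvC h
  · apply hvC
    rw [← hC] at hu ⊢
    obtain ⟨a, ha, ho, hr⟩ := hu
    exact ⟨a, ha, ho, hr.trans (SimpleGraph.Adj.reachable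
      ⟨reachS_mem hr (hA ha), hR, huv, reachS_open hr ho, hne⟩)⟩

/-- opening a site at the boundary of the cluster -/
lemma wS_piv {ω : Cfg n} {R A C : Set (V n)} (hA : A ⊆ R) (hC : cluS ω R A = C) {v : V n}
    (hv : v ∈ wS R A C) (hvC : v ∉ C) : v ∈ cluS (upd (Sum.inl v) true ω) R A := by
  obtain ⟨hR, h | h | ⟨u, hu, huv⟩⟩ := hv
  · exact ⟨v, h, upd_self _ _ _, SimpleGraph.Reachable.refl _⟩
  · exact absurd h hvC
  · rw [← hC] at hu
    have hu' := cluS_le (upd_true_le (Sum.inl v) ω) hu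
    obtain ⟨a, ha, ho, hr⟩ := hu'
    exact ⟨a, ha, ho, hr.trans (SimpleGraph.Adj.reachable
      ⟨reachS_mem hr (hA ha), hR, huv, reachS_open hr ho, upd_self _ _ _⟩)⟩

lemma Bd_sub (k : ℕ) : Bd n k ⊆ (CB k k : Set (V n)) := fun _ h => h.1

/-- the arm event -/
def armS (n k : ℕ) : Set (Cfg n) := {ω | (0 : V n) ∈ cluS ω (CB k k) (Bd n k)}

lemma armS_inc (k : ℕ) : Inc (armS n k) := by
  rintro ω ω' h hω
  exact cluS_le h hω

lemma armS_dep (k : ℕ) : DepOn (armS n k) (siI (CB k k)) := by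
  intro ω ω' h
  unfold armS cluS
  simp only [mem_setOf_eq]
  rw [Hs_congr h]
  refine exists_congr fun a => and_congr_right fun ha => ?_
  rw [h _ ⟨a, Bd_sub k ha, rfl⟩]

end Pool.Agent.W462.PC
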